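import Pool.Agent.H45.Nev.Base1

/-!
# The Levi form of `∑ ζ_a² |h_a|²`
-/

open Set Metric Filter Topology
open scoped ContDiff

namespace Pool.Agent.H64.Nev

open Pool.Agent.H45.Nev

variable {E : Type*} [NormedAddCommGroup E] [NormedSpace ℂ E]

lemma fderiv_mul_apply' {f g : E → ℝ} {y : E} (hf : DifferentiableAt ℝ f y)
    (hg : DifferentiableAt ℝ g y) (v : E) :
    fderiv ℝ (fun z => f z * g z) y v = f y * fderiv ℝ g y v + g y * fderiv ℝ f y v := by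
  have h := (hf.hasFDerivAt.mul hg.hasFDerivAt).fderiv
  have h' : (fun z => f z * g z) = f * g := rfl
  rw [h', h]
  simp

/-- second derivative of a product -/
lemma snd_mul {f g : E → ℝ} {y : E} (hf : ContDiffAt ℝ 2 f y) (hg : ContDiffAt ℝ 2 g y)
    (v w : E) :
    fderiv ℝ (fderiv ℝ (fun z => f z * g z)) y v w =
      f y * fderiv ℝ (fderiv ℝ g) y v w + g y * fderiv ℝ (fderiv ℝ f) y v w +
        (fderiv ℝ f y v * fderiv ℝ g y w + fderiv ℝ g y v * fderiv ℝ f y w) := by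
  have hf1 : ∀ᶠ x in 𝓝 y, ContDiffAt ℝ 2 f x := hf.eventually (by simp)
  have hg1 : ∀ᶠ x in 𝓝 y, ContDiffAt ℝ 2 g x := hg.eventually (by simp)
  have hev : fderiv ℝ (fun z => f z * g z) =ᶠ[𝓝 y]
      fun z => f z • fderiv ℝ g z + g z • fderiv ℝ f z := by
    filter_upwards [hf1, hg1] with z hz hz'
    exact ((hz.differentiableAt (by norm_num)).hasFDerivAt.mul
      (hz'.differentiableAt (by norm_num)).hasFDerivAt).fderiv
  rw [hev.fderiv_eq]
  have hfd : DifferentiableAt ℝ (fderiv ℝ f) y :=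
    (hf.fderiv_right (m := 1) (by norm_num)).differentiableAt (by norm_num)
  have hgd : DifferentiableAt ℝ (fderiv ℝ g) y :=
    (hg.fderiv_right (m := 1) (by norm_num)).differentiableAt (by norm_num)
  have hf0 := (hf.differentiableAt (by norm_num)).hasFDerivAt
  have hg0 := (hg.differentiableAt (by norm_num)).hasFDerivAt
  have h := ((hf0.smul hgd.hasFDerivAt).add (hg0.smul hfd.hasFDerivAt)).fderiv
  have h' : (fun z => f z • fderiv ℝ g z + g z • fderiv ℝ f z) =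
    (f • fderiv ℝ g + g • fderiv ℝ f) := rfl
  rw [h', h]
  simp
  ring

lemma levS_mul {f g : E → ℝ} {y : E} (hf : ContDiffAt ℝ 2 f y) (hg : ContDiffAt ℝ 2 g y)
    (v : E) :
    levS (fun z => f z * g z) y v v = f y * levS g y v v + g y * levS f y v v +
      2 * (fderiv ℝ f y v * fderiv ℝ g y v +
        fderiv ℝ f y (Complex.I • v) * fderiv ℝ g y (Complex.I • v)) := by
  unfold levS
  rw [snd_mul hf hg, snd_mul hf hg]
  ring

lemma levS_congr {f g : E → ℝ} {y : E} (h : f =ᶠ[𝓝 y] g) (v w : E) :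
    levS f y v w = levS g y v w := by
  unfold levS
  rw [(h.fderiv).fderiv_eq]

lemma grd_congr {f g : E → ℝ} {y : E} (h : f =ᶠ[𝓝 y] g) (v : E) :
    grd f y v = grd g y v := by
  unfold grd
  rw [h.fderiv_eq]

lemma snd_sum {ι : Type*} (T : Finset ι) {f : ι → E → ℝ} {y : E}
    (hf : ∀ a ∈ T, ContDiffAt ℝ 2 (f a) y) (v w : E) :
    fderiv ℝ (fderiv ℝ (fun z => ∑ a ∈ T, f a z)) y v w =
      ∑ a ∈ T, fderiv ℝ (fderiv ℝ (f a)) y v w := by
  have hf1 : ∀ᶠ x in 𝓝 y, ∀ a ∈ T, ContDiffAt ℝ 2 (f a) x := by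
    rw [Filter.eventually_all_finset]
    exact fun a ha => (hf a ha).eventually (by simp)
  have hev : fderiv ℝ (fun z => ∑ a ∈ T, f a z) =ᶠ[𝓝 y] fun z => ∑ a ∈ T, fderiv ℝ (f a) z := by
    filter_upwards [hf1] with z hz
    exact (HasFDerivAt.fun_sum fun a ha =>
      ((hz a ha).differentiableAt (by norm_num)).hasFDerivAt).fderiv
  rw [hev.fderiv_eq]
  have h : HasFDerivAt (fun z => ∑ a ∈ T, fderiv ℝ (f a) z)
      (∑ a ∈ T, fderiv ℝ (fderiv ℝ (f a)) y) y :=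
    HasFDerivAt.fun_sum fun a ha =>
      (((hf a ha).fderiv_right (m := 1) (by norm_num)).differentiableAt (by norm_num)).hasFDerivAt
  rw [h.fderiv]
  simp

lemma levS_sum {ι : Type*} (T : Finset ι) {f : ι → E → ℝ} {y : E}
    (hf : ∀ a ∈ T, ContDiffAt ℝ 2 (f a) y) (v w : E) :
    levS (fun z => ∑ a ∈ T, f a z) y v w = ∑ a ∈ T, levS (f a) y v w := by
  unfold levS
  rw [snd_sum T hf, snd_sum T hf, Finset.sum_add_distrib]

lemma fderiv_sum_apply {ι : Type*} (T : Finset ι) {f : ι → E → ℝ} {y : E}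
    (hf : ∀ a ∈ T, ContDiffAt ℝ 2 (f a) y) (v : E) :
    fderiv ℝ (fun z => ∑ a ∈ T, f a z) y v = ∑ a ∈ T, fderiv ℝ (f a) y v := by
  rw [(HasFDerivAt.fun_sum fun a ha =>
      ((hf a ha).differentiableAt (by norm_num)).hasFDerivAt).fderiv]
  simp

/-- derivative of `|h|²` for holomorphic `h` -/
lemma fderiv_normSq {h : E → ℂ} {y : E} (hh : DifferentiableAt ℂ h y) (v : E) :
    fderiv ℝ (fun z => ‖h z‖ ^ 2) y v =
      2 * (starRingEnd ℂ (h y) * fderiv ℂ h y v).re := by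
  have h1 : HasFDerivAt h ((fderiv ℂ h y).restrictScalars ℝ) y :=
    hh.hasFDerivAt.restrictScalars ℝ
  rw [h1.norm_sq.fderiv]
  simp [Complex.inner]
  ring

lemma levS_normSq_id (w v : ℂ) : levS (fun z : ℂ => ‖z‖ ^ 2) w v v = 4 * ‖v‖ ^ 2 := by
  have h1 : fderiv ℝ (fun z : ℂ => ‖z‖ ^ 2) = fun z => (2 : ℝ) • (innerSL ℝ z : ℂ →L[ℝ] ℝ) := by
    ext z u
    have h0 := ((hasFDerivAt_id (𝕜 := ℝ) z).norm_sq).fderiv
    simp only [id] at h0
    rw [h0]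
    simp
    ring
  have h2 : ∀ a b : ℂ, fderiv ℝ (fderiv ℝ (fun z : ℂ => ‖z‖ ^ 2)) w a b = 2 * inner ℝ a b := by
    intro a b
    rw [h1]
    have h3 := ((innerSL ℝ : ℂ →L[ℝ] ℂ →L[ℝ] ℝ).hasFDerivAt (x := w)).const_smul (2 : ℝ)
    have h4 : (fun z : ℂ => (2 : ℝ) • (innerSL ℝ z : ℂ →L[ℝ] ℝ)) =
        (2 : ℝ) • ⇑(innerSL ℝ : ℂ →L[ℝ] ℂ →L[ℝ] ℝ) := rfl
    rw [h4, h3.fderiv]
    rfl
  unfold levS
  rw [h2, h2, real_inner_self_eq_norm_sq, real_inner_self_eq_norm_sq, norm_smul]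
  simp
  ring

lemma contDiff_normSq : ContDiff ℝ ∞ (fun z : ℂ => ‖z‖ ^ 2) := contDiff_norm_sq ℝ

lemma levS_normSq {h : E → ℂ} {y : E} (hh : ContDiffAt ℂ 2 h y) (v : E) :
    levS (fun z => ‖h z‖ ^ 2) y v v = 4 * ‖fderiv ℂ h y v‖ ^ 2 := by
  have h1 : ContDiffAt ℝ 2 (fun z : ℂ => ‖z‖ ^ 2) (h y) :=
    (contDiff_norm_sq ℝ).contDiffAt
  have := levS_comp h1 hh v v
  rw [levS_normSq_id] at this
  exact this

lemma contDiffAt_normSq {n : ℕ∞} {h : E → ℂ} {y : E} (hh : ContDiffAt ℂ n h y) :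
    ContDiffAt ℝ n (fun z => ‖h z‖ ^ 2) y := by
  have h1 : ContDiffAt ℝ n (fun z : ℂ => ‖z‖ ^ 2) (h y) :=
    (contDiff_norm_sq ℝ).contDiffAt
  exact h1.comp y (hh.restrict_scalars ℝ)

/-- Cauchy–Schwarz -/
lemma cs_sum {ι : Type*} (T : Finset ι) (u w : ι → ℂ) :
    ‖∑ a ∈ T, u a * starRingEnd ℂ (w a)‖ ^ 2 ≤ (∑ a ∈ T, ‖u a‖ ^ 2) * ∑ a ∈ T, ‖w a‖ ^ 2 := by
  have h1 : ‖∑ a ∈ T, u a * starRingEnd ℂ (w a)‖ ≤ ∑ a ∈ T, ‖u a‖ * ‖w a‖ := by
    refine (norm_sum_le _ _).trans (le_of_eq ?_)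
    refine Finset.sum_congr rfl fun a _ => ?_
    rw [norm_mul, RCLike.norm_conj]
  calc ‖∑ a ∈ T, u a * starRingEnd ℂ (w a)‖ ^ 2 ≤ (∑ a ∈ T, ‖u a‖ * ‖w a‖) ^ 2 := by gcongr
    _ ≤ _ := Finset.sum_mul_sq_le_sq_mul_sq T _ _

/-- the key inequality: `F Δ F - |∇F|² ≥ F ∑ (2 ζ Δ ζ - 2 |∇ζ|²) |h|²` for
`F = ∑ ζ² |h|²`, `h` holomorphic. -/
theorem levi_key {ι : Type*} (T : Finset ι) {ζ : ι → E → ℝ} {h : ι → E → ℂ} {y : E}
    (hζ : ∀ a ∈ T, ContDiffAt ℝ 2 (ζ a) y) (hh : ∀ a ∈ T, ContDiffAt ℂ 2 (h a) y) (v : E)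
    {F : E → ℝ} (hF : F =ᶠ[𝓝 y] fun z => ∑ a ∈ T, ζ a z ^ 2 * ‖h a z‖ ^ 2) :
    F y * ∑ a ∈ T, (2 * ζ a y * levS (ζ a) y v v - 2 * grd (ζ a) y v) * ‖h a y‖ ^ 2 ≤
      F y * levS F y v v - grd F y v := by
  have hFy : F y = ∑ a ∈ T, ζ a y ^ 2 * ‖h a y‖ ^ 2 := hF.self_of_nhds
  have hF0 : 0 ≤ F y := by rw [hFy]; positivity
  have hN : ∀ a ∈ T, ContDiffAt ℝ 2 (fun z => ‖h a z‖ ^ 2) y := fun a ha =>
    contDiffAt_normSq (hh a ha)
  have hζ2 : ∀ a ∈ T, ContDiffAt ℝ 2 (fun z => ζ a z ^ 2) y := fun a ha => (hζ a ha).pow 2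
  have hprod : ∀ a ∈ T, ContDiffAt ℝ 2 (fun z => ζ a z ^ 2 * ‖h a z‖ ^ 2) y := fun a ha =>
    (hζ2 a ha).mul (hN a ha)
  have hd2 : ∀ a ∈ T, ∀ w, fderiv ℝ (fun z => ζ a z ^ 2) y w = 2 * ζ a y * fderiv ℝ (ζ a) y w := by
    intro a ha w
    have h0 := fderiv_mul_apply' ((hζ a ha).differentiableAt (by norm_num))
      ((hζ a ha).differentiableAt (by norm_num)) w
    have h1 : (fun z => ζ a z ^ 2) = fun z => ζ a z * ζ a z := by ext z; ring
    rw [h1, h0]; ring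
  have hl2 : ∀ a ∈ T, levS (fun z => ζ a z ^ 2) y v v =
      2 * ζ a y * levS (ζ a) y v v + 2 * grd (ζ a) y v := by
    intro a ha
    have h0 := levS_mul (hζ a ha) (hζ a ha) v
    have h1 : (fun z => ζ a z ^ 2) = fun z => ζ a z * ζ a z := by ext z; ring
    rw [h1, h0]
    unfold grd
    ring
  set h' : ι → ℂ := fun a => fderiv ℂ (h a) y v with hh'
  set ζ1 : ι → ℝ := fun a => fderiv ℝ (ζ a) y v with hζ1
  set ζ2 : ι → ℝ := fun a => fderiv ℝ (ζ a) y (Complex.I • v) with hζ2'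
  set u : ι → ℂ := fun a => (ζ a y : ℂ) * h' a + ((ζ1 a : ℂ) - Complex.I * ζ2 a) * h a y with hu
  set S : ℂ := ∑ a ∈ T, u a * starRingEnd ℂ ((ζ a y : ℂ) * h a y) with hS
  -- first derivatives
  have hD : ∀ a ∈ T, ∀ w, fderiv ℝ (fun z => ζ a z ^ 2 * ‖h a z‖ ^ 2) y w =
      ζ a y ^ 2 * (2 * (starRingEnd ℂ (h a y) * fderiv ℂ (h a) y w).re) +
        ‖h a y‖ ^ 2 * (2 * ζ a y * fderiv ℝ (ζ a) y w) := by
    intro a ha w
    rw [fderiv_mul_apply' ((hζ2 a ha).differentiableAt (by norm_num))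
      ((hN a ha).differentiableAt (by norm_num)), hd2 a ha,
      fderiv_normSq ((hh a ha).differentiableAt (by norm_num))]
  have hnorm : ∀ a, ((‖h a y‖ ^ 2 : ℝ) : ℝ) = (h a y).re ^ 2 + (h a y).im ^ 2 := by
    intro a
    rw [← Complex.normSq_eq_norm_sq, Complex.normSq_apply]; ring
  have hD1 : fderiv ℝ F y v = 2 * S.re := by
    rw [hF.fderiv_eq, fderiv_sum_apply T hprod, hS, Complex.re_sum, Finset.mul_sum]
    refine Finset.sum_congr rfl fun a ha => ?_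
    rw [hD a ha, hnorm]
    simp only [hu, hh', hζ1, hζ2', map_mul, Complex.conj_ofReal, Complex.mul_re, Complex.add_re,
      Complex.sub_re, Complex.ofReal_re, Complex.ofReal_im, Complex.mul_im, Complex.add_im,
      Complex.sub_im, Complex.conj_re, Complex.conj_im, Complex.I_re, Complex.I_im]
    ring
  have hD2 : fderiv ℝ F y (Complex.I • v) = -2 * S.im := by
    rw [hF.fderiv_eq, fderiv_sum_apply T hprod, hS, Complex.im_sum, Finset.mul_sum]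
    refine Finset.sum_congr rfl fun a ha => ?_
    have hI : fderiv ℂ (h a) y (Complex.I • v) = Complex.I * fderiv ℂ (h a) y v := by
      rw [map_smul, smul_eq_mul]
    rw [hD a ha, hnorm, hI]
    simp only [hu, hh', hζ1, hζ2', map_mul, Complex.conj_ofReal, Complex.mul_re, Complex.add_re,
      Complex.sub_re, Complex.ofReal_re, Complex.ofReal_im, Complex.mul_im, Complex.add_im,
      Complex.sub_im, Complex.conj_re, Complex.conj_im, Complex.I_re, Complex.I_im]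
    ring
  have hgrd : grd F y v = 4 * ‖S‖ ^ 2 := by
    unfold grd
    rw [hD1, hD2, ← Complex.normSq_eq_norm_sq, Complex.normSq_apply]
    ring
  have hSle : ‖S‖ ^ 2 ≤ (∑ a ∈ T, ‖u a‖ ^ 2) * F y := by
    refine (cs_sum T u _).trans (le_of_eq ?_)
    rw [hFy]
    congr 1
    refine Finset.sum_congr rfl fun a _ => ?_
    rw [norm_mul, mul_pow, Complex.norm_real, Real.norm_eq_abs, sq_abs]
  have hlev : levS F y v v = 4 * ∑ a ∈ T, ‖u a‖ ^ 2 +
      ∑ a ∈ T, (2 * ζ a y * levS (ζ a) y v v - 2 * grd (ζ a) y v) * ‖h a y‖ ^ 2 := by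
    rw [levS_congr hF, levS_sum T hprod, Finset.mul_sum, ← Finset.sum_add_distrib]
    refine Finset.sum_congr rfl fun a ha => ?_
    rw [levS_mul (hζ2 a ha) (hN a ha), hl2 a ha, levS_normSq (hh a ha), hd2 a ha, hd2 a ha,
      fderiv_normSq ((hh a ha).differentiableAt (by norm_num)),
      fderiv_normSq ((hh a ha).differentiableAt (by norm_num))]
    have hI : fderiv ℂ (h a) y (Complex.I • v) = Complex.I * fderiv ℂ (h a) y v := by
      rw [map_smul, smul_eq_mul]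
    rw [hI, hnorm, ← Complex.normSq_eq_norm_sq, ← Complex.normSq_eq_norm_sq, Complex.normSq_apply,
      Complex.normSq_apply]
    unfold grd
    simp only [hu, hh', hζ1, hζ2', Complex.mul_re, Complex.add_re,
      Complex.sub_re, Complex.ofReal_re, Complex.ofReal_im, Complex.mul_im, Complex.add_im,
      Complex.sub_im, Complex.conj_re, Complex.conj_im, Complex.I_re, Complex.I_im]
    ring
  rw [hlev, hgrd]
  nlinarith [hSle]

end Pool.Agent.H64.Nev
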