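import Mathlib

/-!
# Complex differentiable functions of several variables are smooth

If `f : E → F` is complex differentiable on an open subset `U` of a finite dimensional complex
space then `f` is `C^∞` on `U` (over `ℂ`).
-/

open MeasureTheory Set Metric Filter Topology
open scoped ContDiff Real

namespace Pool.Agent.H64.Nev

variable {E : Type*} [NormedAddCommGroup E] [NormedSpace ℂ E]
  {F : Type*} [NormedAddCommGroup F] [NormedSpace ℂ F]

/-- the restriction to a complex line -/
lemma hasDerivAt_line {f : E → F} {x v : E} {z : ℂ} (h : DifferentiableAt ℂ f (x + z • v)) :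
    HasDerivAt (fun z : ℂ => f (x + z • v)) (fderiv ℂ f (x + z • v) v) z := by
  have h1 : HasDerivAt (fun z : ℂ => x + z • v) v z := by
    simpa using ((hasDerivAt_id z).smul_const v).const_add x
  exact h.hasFDerivAt.comp_hasDerivAt z h1

lemma mem_of_closedBall {x v : E} {ρ : ℝ} {z : ℂ} (h : ‖z‖ * ‖v‖ ≤ ρ) :
    x + z • v ∈ closedBall x ρ := by
  rw [mem_closedBall, dist_eq_norm]
  simpa [norm_smul] using h

/-- Cauchy estimate for the Fréchet derivative -/
lemma norm_fderiv_le {f : E → F} {x : E} {ρ C : ℝ} (hρ : 0 < ρ)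
    (hf : ∀ y ∈ closedBall x ρ, DifferentiableAt ℂ f y)
    (hC : ∀ y ∈ closedBall x ρ, ‖f y‖ ≤ C) : ‖fderiv ℂ f x‖ ≤ C / ρ := by
  have hC0 : 0 ≤ C := (norm_nonneg _).trans (hC x (mem_closedBall_self hρ.le))
  refine ContinuousLinearMap.opNorm_le_bound _ (by positivity) fun v => ?_
  rcases eq_or_ne v 0 with rfl | hv
  · simp
  have hv' : 0 < ‖v‖ := norm_pos_iff.2 hv
  have hR : 0 < ρ / ‖v‖ := by positivity
  have hin : ∀ z ∈ closedBall (0 : ℂ) (ρ / ‖v‖), x + z • v ∈ closedBall x ρ := by
    intro z hz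
    refine mem_of_closedBall ?_
    rw [mem_closedBall_zero_iff] at hz
    calc ‖z‖ * ‖v‖ ≤ ρ / ‖v‖ * ‖v‖ := by gcongr
      _ = ρ := by field_simp
  have hd : DifferentiableOn ℂ (fun z : ℂ => f (x + z • v)) (closedBall 0 (ρ / ‖v‖)) :=
    fun z hz => (hasDerivAt_line (hf _ (hin z hz))).differentiableAt.differentiableWithinAt
  have h1 := Complex.norm_deriv_le_of_forall_mem_sphere_norm_le hR
    (hd.mono closure_ball_subset_closedBall).diffContOnCl
    (fun z hz => hC _ (hin z (sphere_subset_closedBall hz)))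
  have h2 : deriv (fun z : ℂ => f (x + z • v)) 0 = fderiv ℂ f x v := by
    have := (hasDerivAt_line (f := f) (x := x) (v := v) (z := 0)
      (hf _ (hin 0 (mem_closedBall_self hR.le)))).deriv
    simpa using this
  rw [h2] at h1
  calc ‖fderiv ℂ f x v‖ ≤ C / (ρ / ‖v‖) := h1
    _ = C / ρ * ‖v‖ := by field_simp

/-- the derivative of a complex differentiable function is continuous -/
lemma continuousOn_fderiv [FiniteDimensional ℂ E] {f : E → F} {U : Set E} (hU : IsOpen U)
    (hf : DifferentiableOn ℂ f U) : ContinuousOn (fderiv ℂ f) U := by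
  have : ProperSpace E := FiniteDimensional.proper ℂ E
  have hd : ∀ y ∈ U, DifferentiableAt ℂ f y := fun y hy => hf.differentiableAt (hU.mem_nhds hy)
  intro x hx
  refine ContinuousAt.continuousWithinAt ?_
  obtain ⟨r, hr, hrU⟩ := Metric.isOpen_iff.1 hU x hx
  set ρ := r / 3 with hρdef
  have hρ : 0 < ρ := by positivity
  have hsub : closedBall x (2 * ρ) ⊆ U :=
    (closedBall_subset_ball (by rw [hρdef]; linarith)).trans hrU
  have hcomp : IsCompact (closedBall x (2 * ρ)) := isCompact_closedBall _ _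
  have huc := hcomp.uniformContinuousOn_of_continuous (hf.continuousOn.mono hsub)
  rw [Metric.continuousAt_iff]
  intro ε hε
  obtain ⟨δ, hδ, h⟩ := Metric.uniformContinuousOn_iff.1 huc (ε * ρ / 2) (by positivity)
  refine ⟨min δ ρ, by positivity, fun {y} hy => ?_⟩
  have hyδ : dist y x < δ := hy.trans_le (min_le_left _ _)
  have hyρ : dist y x < ρ := hy.trans_le (min_le_right _ _)
  have hyU : ∀ w ∈ closedBall (0 : E) ρ, y + w ∈ closedBall x (2 * ρ) := by
    intro w hw
    rw [mem_closedBall_zero_iff] at hw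
    rw [mem_closedBall, dist_eq_norm]
    calc ‖y + w - x‖ = ‖(y - x) + w‖ := by congr 1; abel
      _ ≤ ‖y - x‖ + ‖w‖ := norm_add_le _ _
      _ ≤ 2 * ρ := by rw [← dist_eq_norm]; linarith
  have hxU : ∀ w ∈ closedBall (0 : E) ρ, x + w ∈ closedBall x (2 * ρ) := by
    intro w hw
    rw [mem_closedBall_zero_iff] at hw
    rw [mem_closedBall, dist_eq_norm]
    simp only [add_sub_cancel_left]
    linarith
  have hdiff : ∀ w ∈ closedBall (0 : E) ρ,
      HasFDerivAt (fun w => f (y + w) - f (x + w)) (fderiv ℂ f (y + w) - fderiv ℂ f (x + w)) w := by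
    intro w hw
    have h1 : HasFDerivAt (fun w => f (y + w)) (fderiv ℂ f (y + w)) w := by
      have h0 : HasFDerivAt (fun w => y + w) (ContinuousLinearMap.id ℂ E) w :=
        (hasFDerivAt_id w).const_add y
      have := (hd _ (hsub (hyU w hw))).hasFDerivAt.comp w h0
      rw [ContinuousLinearMap.comp_id] at this
      exact this
    have h2 : HasFDerivAt (fun w => f (x + w)) (fderiv ℂ f (x + w)) w := by
      have h0 : HasFDerivAt (fun w => x + w) (ContinuousLinearMap.id ℂ E) w :=
        (hasFDerivAt_id w).const_add x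
      have := (hd _ (hsub (hxU w hw))).hasFDerivAt.comp w h0
      rw [ContinuousLinearMap.comp_id] at this
      exact this
    exact h1.sub h2
  have hb := norm_fderiv_le (f := fun w => f (y + w) - f (x + w)) (x := 0) (C := ε * ρ / 2) hρ
    (fun w hw => (hdiff w hw).differentiableAt) (fun w hw => by
      have h3 := h (y + w) (hyU w hw) (x + w) (hxU w hw) (by simpa using hyδ)
      rw [dist_eq_norm] at h3
      exact h3.le)
  have h4 := (hdiff 0 (mem_closedBall_self hρ.le)).fderiv
  simp only [add_zero] at h4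
  rw [h4] at hb
  rw [dist_eq_norm]
  calc ‖fderiv ℂ f y - fderiv ℂ f x‖ ≤ ε * ρ / 2 / ρ := hb
    _ = ε / 2 := by field_simp
    _ < ε := by linarith

/-- Cauchy's formula for the derivative in a direction -/
lemma cauchy_dir [CompleteSpace F] {f : E → F} {x v : E} {ρ : ℝ} (hρ : 0 < ρ)
    (hf : ∀ y ∈ closedBall x (ρ * ‖v‖), DifferentiableAt ℂ f y) :
    fderiv ℂ f x v = (2 * π * Complex.I : ℂ)⁻¹ •
      ∫ θ in (0 : ℝ)..2 * π, deriv (circleMap 0 ρ) θ •
        ((1 / (circleMap 0 ρ θ) ^ 2) • f (x + circleMap 0 ρ θ • v)) := by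
  have hin : ∀ z ∈ closedBall (0 : ℂ) ρ, x + z • v ∈ closedBall x (ρ * ‖v‖) := by
    intro z hz
    refine mem_of_closedBall ?_
    rw [mem_closedBall_zero_iff] at hz
    gcongr
  have hd : DifferentiableOn ℂ (fun z : ℂ => f (x + z • v)) (closedBall 0 ρ) :=
    fun z hz => (hasDerivAt_line (hf _ (hin z hz))).differentiableAt.differentiableWithinAt
  have h1 := hd.deriv_eq_smul_circleIntegral hρ
  have h2 : deriv (fun z : ℂ => f (x + z • v)) 0 = fderiv ℂ f x v := by
    have := (hasDerivAt_line (f := f) (x := x) (v := v) (z := 0)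
      (hf _ (hin 0 (mem_closedBall_self hρ.le)))).deriv
    simpa using this
  rw [h2] at h1
  have h3 : (2 * π * Complex.I : ℂ) ≠ 0 := Complex.two_pi_I_ne_zero
  rw [← inv_smul_eq_iff₀ h3] at h1
  rw [← h1, circleIntegral]
  simp only [sub_zero]

/-- the directional derivatives of a complex differentiable function are complex
differentiable -/
lemma differentiableOn_fderiv_apply [FiniteDimensional ℂ E] [CompleteSpace F] {f : E → F}
    {U : Set E} (hU : IsOpen U) (hf : DifferentiableOn ℂ f U) (v : E) :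
    DifferentiableOn ℂ (fun x => fderiv ℂ f x v) U := by
  have : ProperSpace E := FiniteDimensional.proper ℂ E
  have hd : ∀ y ∈ U, DifferentiableAt ℂ f y := fun y hy => hf.differentiableAt (hU.mem_nhds hy)
  have hcd := continuousOn_fderiv hU hf
  intro x₀ hx₀
  refine DifferentiableAt.differentiableWithinAt ?_
  obtain ⟨r, hr, hrU⟩ := Metric.isOpen_iff.1 hU x₀ hx₀
  set ρ : ℝ := r / (3 * (1 + ‖v‖)) with hρdef
  have hv0 : 0 ≤ ‖v‖ := norm_nonneg v
  have hρ : 0 < ρ := by positivity
  have hρv : ρ * ‖v‖ ≤ r / 3 := by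
    rw [hρdef, div_mul_eq_mul_div, div_le_div_iff₀ (by positivity) (by norm_num)]
    nlinarith
  have hsub : closedBall x₀ (2 * (r / 3)) ⊆ U :=
    (closedBall_subset_ball (by linarith)).trans hrU
  have hcomp : IsCompact (closedBall x₀ (2 * (r / 3))) := isCompact_closedBall _ _
  obtain ⟨C, hC⟩ := hcomp.exists_bound_of_continuousOn (hcd.mono hsub)
  have hin : ∀ x ∈ ball x₀ (r / 3), ∀ θ : ℝ,
      x + circleMap 0 ρ θ • v ∈ closedBall x₀ (2 * (r / 3)) := by
    intro x hx θ
    rw [mem_ball, dist_eq_norm] at hx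
    rw [mem_closedBall, dist_eq_norm]
    calc ‖x + circleMap 0 ρ θ • v - x₀‖ = ‖(x - x₀) + circleMap 0 ρ θ • v‖ := by congr 1; abel
      _ ≤ ‖x - x₀‖ + ‖circleMap 0 ρ θ • v‖ := norm_add_le _ _
      _ = ‖x - x₀‖ + ρ * ‖v‖ := by
        rw [norm_smul, norm_circleMap_zero, abs_of_pos hρ]
      _ ≤ 2 * (r / 3) := by linarith
  have hcont : ∀ x ∈ ball x₀ (r / 3), Continuous (fun θ : ℝ => deriv (circleMap 0 ρ) θ •
        ((1 / (circleMap 0 ρ θ) ^ 2) • f (x + circleMap 0 ρ θ • v))) := by
    intro x hx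
    have h1 : Continuous (fun θ : ℝ => f (x + circleMap 0 ρ θ • v)) :=
      (hf.continuousOn.mono hsub).comp_continuous (by fun_prop) (hin x hx)
    have h2 : Continuous (fun θ : ℝ => (1 / (circleMap 0 ρ θ) ^ 2)) := by
      refine continuous_const.div (by fun_prop) fun θ => pow_ne_zero _ ?_
      exact circleMap_ne_center hρ.ne'
    have h3 : Continuous (fun θ : ℝ => deriv (circleMap 0 ρ) θ) := by
      simp only [deriv_circleMap]
      fun_prop
    exact h3.smul (h2.smul h1)
  have hcont' : ∀ x ∈ ball x₀ (r / 3), Continuous (fun θ : ℝ => deriv (circleMap 0 ρ) θ •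
        ((1 / (circleMap 0 ρ θ) ^ 2) • fderiv ℂ f (x + circleMap 0 ρ θ • v))) := by
    intro x hx
    have h1 : Continuous (fun θ : ℝ => fderiv ℂ f (x + circleMap 0 ρ θ • v)) :=
      (hcd.mono hsub).comp_continuous (by fun_prop) (hin x hx)
    have h2 : Continuous (fun θ : ℝ => (1 / (circleMap 0 ρ θ) ^ 2)) := by
      refine continuous_const.div (by fun_prop) fun θ => pow_ne_zero _ ?_
      exact circleMap_ne_center hρ.ne'
    have h3 : Continuous (fun θ : ℝ => deriv (circleMap 0 ρ) θ) := by
      simp only [deriv_circleMap]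
      fun_prop
    exact h3.smul (h2.smul h1)
  have hx₀b : x₀ ∈ ball x₀ (r / 3) := mem_ball_self (by positivity)
  have hkey := intervalIntegral.hasFDerivAt_integral_of_dominated_of_fderiv_le (𝕜 := ℂ)
    (F := fun x θ => deriv (circleMap 0 ρ) θ •
        ((1 / (circleMap 0 ρ θ) ^ 2) • f (x + circleMap 0 ρ θ • v)))
    (F' := fun x θ => deriv (circleMap 0 ρ) θ •
        ((1 / (circleMap 0 ρ θ) ^ 2) • fderiv ℂ f (x + circleMap 0 ρ θ • v)))
    (x₀ := x₀) (s := ball x₀ (r / 3)) (a := 0) (b := 2 * π) (μ := volume)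
    (bound := fun _ => ρ * (1 / ρ ^ 2 * C))
    (isOpen_ball.mem_nhds hx₀b)
    (by
      filter_upwards [isOpen_ball.mem_nhds hx₀b] with x hx
      exact (hcont x hx).aestronglyMeasurable)
    ((hcont x₀ hx₀b).intervalIntegrable _ _)
    (hcont' x₀ hx₀b).aestronglyMeasurable
    (by
      refine Eventually.of_forall fun θ _ x hx => ?_
      rw [norm_smul, norm_smul, deriv_circleMap, norm_mul, norm_circleMap_zero, Complex.norm_I,
        norm_div, norm_pow, norm_circleMap_zero, abs_of_pos hρ, norm_one, mul_one]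
      gcongr
      exact hC _ (hin x hx θ))
    (intervalIntegrable_const)
    (by
      refine Eventually.of_forall fun θ _ x hx => ?_
      have h0 : HasFDerivAt (fun x => x + circleMap 0 ρ θ • v) (ContinuousLinearMap.id ℂ E) x :=
        (hasFDerivAt_id x).add_const _
      have h1 : HasFDerivAt (fun x => f (x + circleMap 0 ρ θ • v))
          (fderiv ℂ f (x + circleMap 0 ρ θ • v)) x := by
        have := (hd _ (hsub (hin x hx θ))).hasFDerivAt.comp x h0
        rw [ContinuousLinearMap.comp_id] at this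
        exact this
      exact (h1.const_smul _).const_smul _)
  have hev : (fun x => fderiv ℂ f x v) =ᶠ[𝓝 x₀] fun x => (2 * π * Complex.I : ℂ)⁻¹ •
      ∫ θ in (0 : ℝ)..2 * π, deriv (circleMap 0 ρ) θ •
        ((1 / (circleMap 0 ρ θ) ^ 2) • f (x + circleMap 0 ρ θ • v)) := by
    filter_upwards [isOpen_ball.mem_nhds hx₀b] with x hx
    refine cauchy_dir hρ fun y hy => hd y (hsub ?_)
    rw [mem_closedBall] at hy ⊢
    rw [mem_ball] at hx
    calc dist y x₀ ≤ dist y x + dist x x₀ := dist_triangle _ _ _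
      _ ≤ 2 * (r / 3) := by linarith
  exact ((hkey.const_smul ((2 * π * Complex.I : ℂ)⁻¹)).differentiableAt).congr_of_eventuallyEq hev

/-- **Osgood / Hartogs**: complex differentiable functions on open subsets of finite dimensional
complex spaces are smooth. -/
theorem contDiffOn_of_differentiableOn [FiniteDimensional ℂ E] [CompleteSpace F] {f : E → F}
    {U : Set E} (hU : IsOpen U) (hf : DifferentiableOn ℂ f U) : ContDiffOn ℂ ∞ f U := by
  rw [contDiffOn_infty]
  intro n
  induction n generalizing f with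
  | zero =>
    simp only [Nat.cast_zero]
    exact contDiffOn_zero.2 hf.continuousOn
  | succ n ih =>
    rw [Nat.cast_add, Nat.cast_one, contDiffOn_succ_iff_fderiv_of_isOpen hU]
    refine ⟨hf, fun h => absurd h (by simp), ?_⟩
    rw [contDiffOn_clm_apply]
    exact fun v => ih (differentiableOn_fderiv_apply hU hf v)

theorem contDiffAt_of_differentiableOn [FiniteDimensional ℂ E] [CompleteSpace F] {f : E → F}
    {U : Set E} (hU : IsOpen U) (hf : DifferentiableOn ℂ f U) {x : E} (hx : x ∈ U) :
    ContDiffAt ℂ ∞ f x :=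
  (contDiffOn_of_differentiableOn hU hf).contDiffAt (hU.mem_nhds hx)

end Pool.Agent.H64.Nev
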