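import Pool.Agent.H45.Nev.LeafDefs
import Pool.Agent.H64.Nev.Osgood
import Pool.Agent.H64.Nev.Levi

/-!
# Derivatives of charts; comparison of a Hermitian metric with the norm in a chart
-/

open MeasureTheory Set Metric Filter Topology
open scoped ContDiff Manifold

namespace Pool.Agent.H64.Nev

open Pool.Agent.H45.Nev

variable {E : Type*} [NormedAddCommGroup E] [NormedSpace ℂ E]
  {M : Type*} [TopologicalSpace M] [ChartedSpace E M]

lemma two_le_infty : (2 : WithTop ℕ∞) ≤ ∞ := WithTop.coe_le_coe.2 (le_top : (2 : ℕ∞) ≤ ⊤)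

/-- derivative of the chart, as a map `E → E` -/
noncomputable def dC (e : OpenPartialHomeomorph M E) (x : M) : E →L[ℂ] E :=
  mfderiv 𝓘(ℂ, E) 𝓘(ℂ, E) e x

/-- derivative of the inverse of the chart, as a map `E → E` -/
noncomputable def dS (e : OpenPartialHomeomorph M E) (y : E) : E →L[ℂ] E :=
  mfderiv 𝓘(ℂ, E) 𝓘(ℂ, E) e.symm y

variable [IsManifold 𝓘(ℂ, E) ω M] {e : OpenPartialHomeomorph M E}

lemma dC_eq (he : e ∈ IsManifold.maximalAtlas 𝓘(ℂ, E) ω M) {x : M} (hx : x ∈ e.source) :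
    dC e x = fderiv ℂ (e ∘ (chartAt E x).symm) (chartAt E x x) := mfderiv_chart_eq he hx

lemma dS_eq (he : e ∈ IsManifold.maximalAtlas 𝓘(ℂ, E) ω M) {y : E} (hy : y ∈ e.target) :
    dS e y = fderiv ℂ (chartAt E (e.symm y) ∘ e.symm) y := mfderiv_symm_eq he hy

lemma dS_comp_dC (he : e ∈ IsManifold.maximalAtlas 𝓘(ℂ, E) ω M) {x : M} (hx : x ∈ e.source) :
    (dS e (e x)).comp (dC e x) = ContinuousLinearMap.id ℂ E ∧
      (dC e x).comp (dS e (e x)) = ContinuousLinearMap.id ℂ E := by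
  rw [dS_eq he (e.map_source hx), e.left_inv hx, dC_eq he hx]
  set c := chartAt E x with hc
  have hcx : x ∈ c.source := mem_chart_source E x
  have hcm : c ∈ IsManifold.maximalAtlas 𝓘(ℂ, E) ω M := chartAt_mem_max x
  have hf : DifferentiableAt ℂ (e ∘ c.symm) (c x) :=
    (contDiffAt_coord hcm he (c.map_source hcx) (by rwa [c.left_inv hcx])).differentiableAt
      (by simp)
  have hg : DifferentiableAt ℂ (c ∘ e.symm) (e x) :=
    (contDiffAt_coord he hcm (e.map_source hx) (by rwa [e.left_inv hx])).differentiableAt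
      (by simp)
  have hfx : (e ∘ c.symm) (c x) = e x := by simp [c.left_inv hcx]
  have hgx : (c ∘ e.symm) (e x) = c x := by simp [e.left_inv hx]
  constructor
  · have h1 : (c ∘ e.symm) ∘ (e ∘ c.symm) =ᶠ[𝓝 (c x)] id := by
      have hcont : ContinuousAt c.symm (c x) := c.continuousAt_symm (c.map_source hcx)
      filter_upwards [c.open_target.mem_nhds (c.map_source hcx),
        hcont.preimage_mem_nhds (e.open_source.mem_nhds (by rwa [c.left_inv hcx]))] with z hz hz'
      simp only [Function.comp_apply, id]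
      rw [e.left_inv hz', c.right_inv hz]
    have h2 := fderiv_comp (c x) (by rw [hfx]; exact hg) hf
    rw [h1.fderiv_eq, fderiv_id, hfx] at h2
    exact h2.symm
  · have h1 : (e ∘ c.symm) ∘ (c ∘ e.symm) =ᶠ[𝓝 (e x)] id := by
      have hcont : ContinuousAt e.symm (e x) := e.continuousAt_symm (e.map_source hx)
      filter_upwards [e.open_target.mem_nhds (e.map_source hx),
        hcont.preimage_mem_nhds (c.open_source.mem_nhds (by rwa [e.left_inv hx]))] with z hz hz'
      simp only [Function.comp_apply, id]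
      rw [c.left_inv hz', e.right_inv hz]
    have h2 := fderiv_comp (e x) (by rw [hgx]; exact hf) hg
    rw [h1.fderiv_eq, fderiv_id, hgx] at h2
    exact h2.symm

lemma dS_dC (he : e ∈ IsManifold.maximalAtlas 𝓘(ℂ, E) ω M) {x : M} (hx : x ∈ e.source) (v : E) :
    dS e (e x) (dC e x v) = v := by
  have := congrArg (fun L : E →L[ℂ] E => L v) (dS_comp_dC he hx).1
  simpa using this

lemma dC_dS (he : e ∈ IsManifold.maximalAtlas 𝓘(ℂ, E) ω M) {x : M} (hx : x ∈ e.source) (v : E) :
    dC e x (dS e (e x) v) = v := by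
  have := congrArg (fun L : E →L[ℂ] E => L v) (dS_comp_dC he hx).2
  simpa using this

lemma dC_injective (he : e ∈ IsManifold.maximalAtlas 𝓘(ℂ, E) ω M) {x : M} (hx : x ∈ e.source)
    {v : E} (h : dC e x v = 0) : v = 0 := by
  rw [← dS_dC he hx v, h, map_zero]

omit [IsManifold 𝓘(ℂ, E) ω M] in
lemma sesq_congr (θ : SesqField E M) {x x' : M} (h : x' = x) (v w : E) :
    θ x' v w = θ x v w := by subst h; rfl

/-- a `(1,1)`-form read in a chart -/
lemma sesq_chart (he : e ∈ IsManifold.maximalAtlas 𝓘(ℂ, E) ω M) {x : M} (hx : x ∈ e.source)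
    (θ : SesqField E M) (v w : TangentSpace 𝓘(ℂ, E) x) :
    θ x v w = inChart e θ (dC e x v) (dC e x w) (e x) := by
  have h1 : inChart e θ (dC e x v) (dC e x w) (e x) =
      θ (e.symm (e x)) (dS e (e x) (dC e x v)) (dS e (e x) (dC e x w)) := rfl
  rw [h1, sesq_congr θ (e.left_inv hx)]
  rw [dS_dC he hx, dS_dC he hx]

omit [IsManifold 𝓘(ℂ, E) ω M] in
lemma inChart_eq (θ : SesqField E M) (v w y : E) :
    inChart e θ v w y = θ (e.symm y) (dS e y v) (dS e y w) := rfl

lemma mLevS_eq (he : e ∈ IsManifold.maximalAtlas 𝓘(ℂ, E) ω M) {x : M} (hx : x ∈ e.source)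
    {u : M → ℝ} (hu : IsSmooth E u) (v : TangentSpace 𝓘(ℂ, E) x) :
    mLevS u x v v = levS (u ∘ e.symm) (e x) (dC e x v) (dC e x v) := by
  have hcu : ∀ x : M, ContDiffAt ℝ 2 (u ∘ (chartAt E x).symm) (chartAt E x x) := fun x =>
    (hu.contDiffAt_symm (chartAt_mem_max x) (mem_chart_target E x)).of_le
      two_le_infty
  have h1 := mLevS_chart he (e.map_source hx) (hcu _) (dC e x v) (dC e x v)
  rw [h1]
  have h2 : ∀ x' : M, x' = x → ∀ w : E, mLevS u x' w w = mLevS u x (w : E) w := by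
    rintro _ rfl w; rfl
  have h3 : (mfderiv 𝓘(ℂ, E) 𝓘(ℂ, E) e.symm (e x) (dC e x v) : E) = v := dS_dC he hx v
  refine Eq.trans ?_ (h2 _ (e.left_inv hx) _).symm
  rw [h3]

lemma mGrd_eq (he : e ∈ IsManifold.maximalAtlas 𝓘(ℂ, E) ω M) {x : M} (hx : x ∈ e.source)
    {u : M → ℝ} (hu : IsSmooth E u) (v : TangentSpace 𝓘(ℂ, E) x) :
    mGrd u x v = grd (u ∘ e.symm) (e x) (dC e x v) := by
  set c := chartAt E x with hc
  have hcx : x ∈ c.source := mem_chart_source E x
  have hcm : c ∈ IsManifold.maximalAtlas 𝓘(ℂ, E) ω M := chartAt_mem_max x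
  have hf : DifferentiableAt ℂ (e ∘ c.symm) (c x) :=
    (contDiffAt_coord hcm he (c.map_source hcx) (by rwa [c.left_inv hcx])).differentiableAt
      (by simp)
  have hfx : (e ∘ c.symm) (c x) = e x := by simp [c.left_inv hcx]
  have hue : DifferentiableAt ℝ (u ∘ e.symm) (e x) :=
    (hu.contDiffAt_symm he (e.map_source hx)).differentiableAt (by simp)
  have hev : u ∘ c.symm =ᶠ[𝓝 (c x)] (u ∘ e.symm) ∘ (e ∘ c.symm) := by
    have hcont : ContinuousAt c.symm (c x) := c.continuousAt_symm (c.map_source hcx)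
    filter_upwards [hcont.preimage_mem_nhds
      (e.open_source.mem_nhds (by rwa [c.left_inv hcx]))] with z hz
    simp only [Function.comp_apply]
    rw [e.left_inv hz]
  have h1 : mGrd u x v = grd (u ∘ c.symm) (c x) v := rfl
  rw [h1, grd_congr hev, grd_comp (by rw [hfx]; exact hue) hf, hfx, dC_eq he hx]

section metric

variable [FiniteDimensional ℂ E]

omit [IsManifold 𝓘(ℂ, E) ω M] in
lemma inChart_expand (θ : SesqField E M) (y w : E) :
    inChart e θ w w y = ∑ l, ∑ m, (Module.finBasis ℂ E).repr w l *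
      (starRingEnd ℂ ((Module.finBasis ℂ E).repr w m) *
        inChart e θ (Module.finBasis ℂ E l) (Module.finBasis ℂ E m) y) := by
  have h1 : inChart e θ w w y = θ (e.symm y) (dS e y w) (dS e y w) := rfl
  have h2 : ∀ l m, inChart e θ (Module.finBasis ℂ E l) (Module.finBasis ℂ E m) y =
    θ (e.symm y) (dS e y (Module.finBasis ℂ E l)) (dS e y (Module.finBasis ℂ E m)) :=
    fun _ _ => rfl
  simp only [h2]
  rw [h1]
  have h3 : dS e y w = ∑ l, (Module.finBasis ℂ E).repr w l • dS e y (Module.finBasis ℂ E l) := by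
    conv_lhs => rw [← (Module.finBasis ℂ E).sum_repr w]
    rw [map_sum]
    refine Finset.sum_congr rfl fun l _ => ?_
    rw [map_smul]
  have h4 : ∀ (L : E →ₗ[ℂ] E →ₗ⋆[ℂ] ℂ), L (dS e y w) (dS e y w) = ∑ l, ∑ m,
      (Module.finBasis ℂ E).repr w l * (starRingEnd ℂ ((Module.finBasis ℂ E).repr w m) *
        L (dS e y (Module.finBasis ℂ E l)) (dS e y (Module.finBasis ℂ E m))) := by
    intro L
    have h5 : ∀ b, L (dS e y w) b = ∑ l, (Module.finBasis ℂ E).repr w l *
        L (dS e y (Module.finBasis ℂ E l)) b := by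
      intro b
      rw [h3, map_sum, LinearMap.sum_apply]
      refine Finset.sum_congr rfl fun l _ => ?_
      rw [L.map_smul, LinearMap.smul_apply, smul_eq_mul]
    have h6 : ∀ a, L a (dS e y w) = ∑ m, starRingEnd ℂ ((Module.finBasis ℂ E).repr w m) *
        L a (dS e y (Module.finBasis ℂ E m)) := by
      intro a
      rw [h3, map_sum]
      refine Finset.sum_congr rfl fun l _ => ?_
      rw [(L a).map_smulₛₗ, smul_eq_mul]
    rw [h5]
    refine Finset.sum_congr rfl fun l _ => ?_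
    rw [h6, Finset.mul_sum]
  exact h4 (θ (e.symm y))

omit [IsManifold 𝓘(ℂ, E) ω M] in
lemma continuousOn_inChart (he : e ∈ IsManifold.maximalAtlas 𝓘(ℂ, E) ω M) (κ : Form11 E M) :
    ContinuousOn (fun p : E × E => inChart e κ.1 p.2 p.2 p.1) (e.target ×ˢ univ) := by
  simp_rw [inChart_expand]
  refine continuousOn_finsetSum _ fun l _ => continuousOn_finsetSum _ fun m _ => ?_
  have hrep : ∀ l, Continuous fun w : E => (Module.finBasis ℂ E).repr w l := fun l =>
    ((Module.finBasis ℂ E).coord l).continuous_of_finiteDimensional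
  have h1 : ContinuousOn (fun p : E × E =>
      inChart e κ.1 (Module.finBasis ℂ E l) (Module.finBasis ℂ E m) p.1) (e.target ×ˢ univ) :=
    (κ.2 e he _ _).continuousOn.comp continuous_fst.continuousOn (fun p hp => hp.1)
  exact ((hrep l).comp continuous_snd).continuousOn.mul
    ((Complex.continuous_conj.comp ((hrep m).comp continuous_snd)).continuousOn.mul h1)

omit [IsManifold 𝓘(ℂ, E) ω M] [FiniteDimensional ℂ E] in
lemma inChart_smul (θ : SesqField E M) (c : ℂ) (w y : E) :
    inChart e θ (c • w) (c • w) y = (‖c‖ ^ 2 : ℝ) * inChart e θ w w y := by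
  have h1 : inChart e θ (c • w) (c • w) y = θ (e.symm y) (dS e y (c • w)) (dS e y (c • w)) := rfl
  have h2 : inChart e θ w w y = θ (e.symm y) (dS e y w) (dS e y w) := rfl
  rw [h1, h2, map_smul]
  have h4 : ∀ (L : E →ₗ[ℂ] E →ₗ⋆[ℂ] ℂ), L (c • dS e y w) (c • dS e y w) =
      (‖c‖ ^ 2 : ℝ) * L (dS e y w) (dS e y w) := by
    intro L
    rw [L.map_smul, LinearMap.smul_apply, (L _).map_smulₛₗ, smul_eq_mul, smul_eq_mul, ← mul_assoc]
    congr 1
    rw [Complex.mul_conj, Complex.normSq_eq_norm_sq]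
  exact h4 (θ (e.symm y))

/-- A Hermitian metric is comparable to the norm, in a chart, on compact sets. -/
theorem metric_cmp {κ : Form11 E M} (hκ : IsHermitianMetric κ)
    (he : e ∈ IsManifold.maximalAtlas 𝓘(ℂ, E) ω M) {K : Set M} (hK : IsCompact K)
    (hKe : K ⊆ e.source) :
    ∃ c > 0, ∃ C > 0, ∀ x ∈ K, ∀ v : TangentSpace 𝓘(ℂ, E) x,
      c * ‖dC e x v‖ ^ 2 ≤ (κ.1 x v v).re ∧ (κ.1 x v v).re ≤ C * ‖dC e x v‖ ^ 2 := by
  have : ProperSpace E := FiniteDimensional.proper ℂ E
  have hKc : IsCompact (e '' K) := hK.image_of_continuousOn (e.continuousOn.mono hKe)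
  have hKt : e '' K ⊆ e.target := by
    rintro _ ⟨x, hx, rfl⟩
    exact e.map_source (hKe hx)
  set S : Set (E × E) := (e '' K) ×ˢ sphere (0 : E) 1 with hS
  have hSc : IsCompact S := hKc.prod (isCompact_sphere 0 1)
  have hcont : ContinuousOn (fun p : E × E => (inChart e κ.1 p.2 p.2 p.1).re) S :=
    Complex.continuous_re.comp_continuousOn
      ((continuousOn_inChart he κ).mono (prod_mono hKt (subset_univ _)))
  have hpos : ∀ p ∈ S, 0 < (inChart e κ.1 p.2 p.2 p.1).re := by
    rintro ⟨y, w⟩ ⟨hy, hw⟩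
    obtain ⟨x, hx, rfl⟩ := hy
    have hw0 : w ≠ 0 := by
      rintro rfl
      simp at hw
    refine (hκ _ _ ?_).1
    intro h0
    have h1 : dS e (e x) w = 0 := h0
    apply hw0
    rw [← dC_dS he (hKe hx) w, h1, map_zero]
  obtain ⟨c, hc, hc'⟩ := hSc.exists_forall_le' hcont hpos
  obtain ⟨C, hC⟩ := hSc.exists_bound_of_continuousOn hcont
  refine ⟨c, hc, max C 1, by positivity, fun x hx v => ?_⟩
  have hx' := hKe hx
  rw [sesq_chart he hx' κ.1 v v]
  set w : E := dC e x v with hw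
  rcases eq_or_ne w 0 with h0 | h0
  · rw [h0]
    have : inChart e κ.1 0 0 (e x) = 0 := by
      have := inChart_smul (e := e) κ.1 0 (0 : E) (e x)
      simpa using this
    simp [this]
  have hn : 0 < ‖w‖ := norm_pos_iff.2 h0
  set w1 : E := ((‖w‖⁻¹ : ℝ) : ℂ) • w with hw1
  have hw1n : w1 ∈ sphere (0 : E) 1 := by
    rw [mem_sphere_zero_iff_norm, hw1, norm_smul, Complex.norm_real, norm_inv, norm_norm,
      inv_mul_cancel₀ hn.ne']
  have hww : w = ((‖w‖ : ℝ) : ℂ) • w1 := by
    rw [hw1, smul_smul, ← Complex.ofReal_mul, mul_inv_cancel₀ hn.ne', Complex.ofReal_one, one_smul]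
  have hsc : (inChart e κ.1 w w (e x)).re = ‖w‖ ^ 2 * (inChart e κ.1 w1 w1 (e x)).re := by
    conv_lhs => rw [hww]
    rw [inChart_smul, Complex.re_ofReal_mul, Complex.norm_real, norm_norm]
  have hmem : (e x, w1) ∈ S := ⟨mem_image_of_mem _ hx, hw1n⟩
  have h1 := hc' _ hmem
  have h2 := hC _ hmem
  rw [hsc]
  constructor
  · rw [mul_comm]
    exact mul_le_mul_of_nonneg_left h1 (by positivity)
  · rw [mul_comm]
    refine mul_le_mul_of_nonneg_right ?_ (by positivity)
    exact (le_abs_self _).trans (h2.trans (le_max_left _ _))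

end metric

end Pool.Agent.H64.Nev
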