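import Pool.Agent.H64.Nev.DefFun

/-!
# A quasi-plurisubharmonic defining function of the singular set of a foliation
-/

open MeasureTheory Set Metric Filter Topology
open scoped ContDiff Manifold

namespace Pool.Agent.H64.Nev

open Pool.Agent.H45.Nev

variable {E : Type*} [NormedAddCommGroup E] [NormedSpace ℂ E]
  {M : Type*} [TopologicalSpace M] [ChartedSpace E M] [IsManifold 𝓘(ℂ, E) ω M]
  [FiniteDimensional ℂ E] (F : SingFoliation E M)

/-- a smooth cutoff supported in a chart times the squared length of the vector field -/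
lemma term_smooth {ζ : M → ℝ} (hζ : IsSmooth E ζ) {i : F.ι} {e : OpenPartialHomeomorph M E}
    (he : e ∈ IsManifold.maximalAtlas 𝓘(ℂ, E) ω M) (hs : tsupport ζ ⊆ e.source ∩ F.U i) :
    IsSmooth E (fun x => ζ x ^ 2 * Bf F e i x) := by
  refine isSmooth_of_chart fun x => ⟨chartAt E x, chartAt_mem_max x, mem_chart_source E x, ?_⟩
  set c := chartAt E x with hc
  have hcx : x ∈ c.source := mem_chart_source E x
  have hcm : c ∈ IsManifold.maximalAtlas 𝓘(ℂ, E) ω M := chartAt_mem_max x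
  have hcont : ContinuousAt c.symm (c x) := c.continuousAt_symm (c.map_source hcx)
  by_cases hx : x ∈ tsupport ζ
  · have hO : e.source ∩ F.U i ∈ 𝓝 (c.symm (c x)) := by
      rw [c.left_inv hcx]
      exact (e.open_source.inter (F.isOpen_U i)).mem_nhds (hs hx)
    filter_upwards [c.open_target.mem_nhds (c.map_source hcx), hcont.preimage_mem_nhds hO]
      with y hy hy'
    have h1 : ContDiffAt ℝ ∞ (fun z => (ζ (c.symm z)) ^ 2) y := (hζ.contDiffAt_symm hcm hy).pow 2
    have h2 : ContDiffAt ℝ ∞ (fun z => Bf F e i (c.symm z)) y := by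
      unfold Bf
      refine ContDiffAt.sum fun l _ => ?_
      exact contDiffAt_normSq (hfun_contDiffAt F he hcm hy hy'.1 hy'.2 l)
    exact h1.mul h2
  · have hO : (tsupport ζ)ᶜ ∈ 𝓝 (c.symm (c x)) := by
      rw [c.left_inv hcx]
      exact (isClosed_tsupport ζ).isOpen_compl.mem_nhds hx
    have hpre : ∀ᶠ y in 𝓝 (c x), c.symm y ∈ (tsupport ζ)ᶜ := hcont.preimage_mem_nhds hO
    filter_upwards [hpre.eventually_nhds] with y hy
    refine (contDiffAt_const (c := (0 : ℝ))).congr_of_eventuallyEq ?_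
    filter_upwards [hy] with z hz
    simp only [Function.comp_apply]
    rw [image_eq_zero_of_notMem_tsupport hz]
    ring

/-- the pointwise Levi inequality for the sum of the terms -/
lemma levi_at {ι : Type*} [DecidableEq ι] (t : Finset ι) {ζ : ι → M → ℝ}
    {i : ι → F.ι} {e : ι → OpenPartialHomeomorph M E}
    (hζ : ∀ a ∈ t, IsSmooth E (ζ a)) (h01 : ∀ a ∈ t, ∀ x, 0 ≤ ζ a x ∧ ζ a x ≤ 1)
    (he : ∀ a ∈ t, e a ∈ IsManifold.maximalAtlas 𝓘(ℂ, E) ω M)
    (hs : ∀ a ∈ t, tsupport (ζ a) ⊆ (e a).source ∩ F.U (i a)) {x : M}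
    {v : TangentSpace 𝓘(ℂ, E) x} {C1 C2 k : ℝ} (hC1 : 0 ≤ C1)
    (hk : 0 ≤ k)
    (h1 : ∀ a ∈ t, |mLevS (ζ a) x v v| ≤ C1 * k ∧ mGrd (ζ a) x v ≤ C1 * k)
    (s : M → ℝ) (hsdef : ∀ x, s x = ∑ a ∈ t, ζ a x ^ 2 * Bf F (e a) (i a) x)
    (h2 : ∀ a ∈ t, x ∈ tsupport (ζ a) → Bf F (e a) (i a) x ≤ C2 * s x) :
    -(4 * C1 * C2 * (t.card * Module.finrank ℂ E)) * s x ^ 2 * k ≤
      s x * mLevS s x v v - mGrd s x v := by
  classical
  set c := chartAt E x with hc
  have hcx : x ∈ c.source := mem_chart_source E x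
  have hcm : c ∈ IsManifold.maximalAtlas 𝓘(ℂ, E) ω M := chartAt_mem_max x
  have hct : c x ∈ c.target := c.map_source hcx
  have hcl : c.symm (c x) = x := c.left_inv hcx
  have hcont : ContinuousAt c.symm (c x) := c.continuousAt_symm hct
  set T : Finset ι := t.filter (fun a => x ∈ tsupport (ζ a)) with hT
  set T' : Finset (ι × Fin (Module.finrank ℂ E)) := T ×ˢ Finset.univ with hT'
  have hTt : ∀ a ∈ T, a ∈ t ∧ x ∈ tsupport (ζ a) := fun a ha => by
    rw [hT, Finset.mem_filter] at ha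
    exact ha
  have hT'T : ∀ p ∈ T', p.1 ∈ T := fun p hp => (Finset.mem_product.1 hp).1
  -- localisation of the sum
  have hF : (s ∘ c.symm) =ᶠ[𝓝 (c x)] fun z => ∑ p ∈ T', (ζ p.1 (c.symm z)) ^ 2 *
      ‖hfun F (e p.1) (i p.1) p.2 (c.symm z)‖ ^ 2 := by
    have hev : ∀ᶠ z in 𝓝 (c x), ∀ a ∈ t, a ∉ T → ζ a (c.symm z) = 0 := by
      rw [Filter.eventually_all_finset]
      intro a ha
      by_cases haT : a ∈ T
      · exact Eventually.of_forall fun z h => absurd haT h
      · have hx : x ∉ tsupport (ζ a) := fun h => haT (Finset.mem_filter.2 ⟨ha, h⟩)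
        have hO : (tsupport (ζ a))ᶜ ∈ 𝓝 (c.symm (c x)) := by
          rw [hcl]
          exact (isClosed_tsupport (ζ a)).isOpen_compl.mem_nhds hx
        filter_upwards [hcont.preimage_mem_nhds hO] with z hz _
        exact image_eq_zero_of_notMem_tsupport hz
    filter_upwards [hev] with z hz
    simp only [Function.comp_apply]
    rw [hsdef, hT', Finset.sum_product]
    have h3 : ∑ a ∈ t, ζ a (c.symm z) ^ 2 * Bf F (e a) (i a) (c.symm z) =
        ∑ a ∈ T, ζ a (c.symm z) ^ 2 * Bf F (e a) (i a) (c.symm z) := by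
      refine (Finset.sum_subset (Finset.filter_subset _ _) fun a ha haT => ?_).symm
      rw [hz a ha haT]
      ring
    rw [h3]
    refine Finset.sum_congr rfl fun a _ => ?_
    unfold Bf
    rw [Finset.mul_sum]
  have key := levi_key (T := T') (ζ := fun p z => ζ p.1 (c.symm z))
    (h := fun p z => hfun F (e p.1) (i p.1) p.2 (c.symm z)) (y := c x)
    (fun p hp => ((hζ _ (hTt _ (hT'T p hp)).1).contDiffAt_symm hcm hct).of_le two_le_infty)
    (fun p hp => by
      have hp1 := hTt _ (hT'T p hp)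
      have hp2 := hs _ hp1.1 hp1.2
      exact (hfun_contDiffAt F (he _ hp1.1) hcm hct (by rw [hcl]; exact hp2.1)
        (by rw [hcl]; exact hp2.2) p.2).of_le two_le_infty) v hF
  have hsx : (s ∘ c.symm) (c x) = s x := by simp [hcl]
  have hs0 : 0 ≤ s x := by
    rw [hsdef]
    exact Finset.sum_nonneg fun a _ => mul_nonneg (sq_nonneg _) (Bf_nonneg F _ _ _)
  rw [hsx] at key
  refine le_trans ?_ key
  have hterm : ∀ p ∈ T', -(4 * C1 * C2 * s x * k) ≤
      (2 * ζ p.1 (c.symm (c x)) * levS (fun z => ζ p.1 (c.symm z)) (c x) v v -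
        2 * grd (fun z => ζ p.1 (c.symm z)) (c x) v) *
        ‖hfun F (e p.1) (i p.1) p.2 (c.symm (c x))‖ ^ 2 := by
    intro p hp
    have hp1 := hTt _ (hT'T p hp)
    have h3 := h1 _ hp1.1
    have h3a : |levS (fun z => ζ p.1 (c.symm z)) (c x) v v| ≤ C1 * k := h3.1
    have h3b : grd (fun z => ζ p.1 (c.symm z)) (c x) v ≤ C1 * k := h3.2
    have h4 := h01 _ hp1.1 x
    have h5 : ‖hfun F (e p.1) (i p.1) p.2 x‖ ^ 2 ≤ Bf F (e p.1) (i p.1) x := by
      unfold Bf
      exact Finset.single_le_sum (f := fun l => ‖hfun F (e p.1) (i p.1) l x‖ ^ 2)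
        (fun l _ => by positivity) (Finset.mem_univ p.2)
    have h6 := h2 _ hp1.1 hp1.2
    rw [hcl]
    set L := levS (fun z => ζ p.1 (c.symm z)) (c x) v v
    set G := grd (fun z => ζ p.1 (c.symm z)) (c x) v
    set b := ‖hfun F (e p.1) (i p.1) p.2 x‖ ^ 2
    have hb0 : 0 ≤ b := by positivity
    have h7 : -(4 * (C1 * k)) ≤ 2 * ζ p.1 x * L - 2 * G := by
      have h8 : |ζ p.1 x * L| ≤ C1 * k := by
        rw [abs_mul, abs_of_nonneg h4.1]
        calc ζ p.1 x * |L| ≤ 1 * (C1 * k) := by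
              gcongr
              exact h4.2
          _ = C1 * k := one_mul _
      have := (abs_le.1 h8).1
      linarith
    have h9 : b ≤ C2 * s x := h5.trans h6
    have h10 : 0 ≤ 4 * (C1 * k) := by positivity
    calc -(4 * C1 * C2 * s x * k) = -(4 * (C1 * k)) * (C2 * s x) := by ring
      _ ≤ -(4 * (C1 * k)) * b := by nlinarith
      _ ≤ (2 * ζ p.1 x * L - 2 * G) * b := by gcongr
  have hsum := Finset.sum_le_sum hterm
  rw [Finset.sum_const, nsmul_eq_mul] at hsum
  have hcard : (T'.card : ℝ) ≤ t.card * Module.finrank ℂ E := by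
    rw [hT', Finset.card_product, Finset.card_univ, Fintype.card_fin]
    push_cast
    gcongr
    exact Finset.filter_subset _ _
  -- either `T'` is empty or `C2 * s x ≥ 0`
  rcases T'.eq_empty_or_nonempty with hemp | ⟨p, hp⟩
  · have hs00 : s x = 0 := by
      have := hF.self_of_nhds
      rw [hsx, hemp] at this
      simpa using this
    rw [hs00]
    simp
  · have hC2 : 0 ≤ C2 * s x := by
      have hp1 := hTt _ (hT'T p hp)
      exact (Bf_nonneg F _ _ _).trans (h2 _ hp1.1 hp1.2)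
    have h11 : -(4 * C1 * C2 * s x * k) * (t.card * Module.finrank ℂ E) ≤
        (T'.card : ℝ) * -(4 * C1 * C2 * s x * k) := by
      have : 0 ≤ 4 * C1 * (C2 * s x) * k := by positivity
      nlinarith
    calc -(4 * C1 * C2 * (t.card * Module.finrank ℂ E)) * s x ^ 2 * k =
        s x * (-(4 * C1 * C2 * s x * k) * (t.card * Module.finrank ℂ E)) := by ring
      _ ≤ s x * _ := by
        gcongr
        exact h11.trans hsum

variable [CompactSpace M] [T2Space M]

/-- H. A smooth defining function of the singular set whose logarithm is leafwise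
quasi-subharmonic. -/
theorem exists_defining (κ : Form11 E M) (hκ : IsHermitianMetric κ) :
    ∃ s : M → ℝ, IsSmooth E s ∧ (∀ x, 0 ≤ s x) ∧ (∀ x, s x = 0 ↔ x ∈ F.sing) ∧
      ∃ C : ℝ, ∀ x ∉ F.sing, -C * s x ^ 2 ≤ s x * leafLap F κ s x - leafGrd F κ s x := by
  classical
  have hreal : IsManifold 𝓘(ℝ, E) ∞ M := isManifold_real
  choose i hi using F.cover
  have hex : ∀ a : M, ∃ f : SmoothBumpFunction 𝓘(ℝ, E) a,
      tsupport f ⊆ (chartAt E a).source ∩ F.U (i a) := by
    intro a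
    have hO : (chartAt E a).source ∩ F.U (i a) ∈ 𝓝 a :=
      inter_mem ((chartAt E a).open_source.mem_nhds (mem_chart_source E a))
        ((F.isOpen_U _).mem_nhds (hi a))
    obtain ⟨f, -, hf⟩ := (SmoothBumpFunction.nhds_basis_tsupport (I := 𝓘(ℝ, E)) a).mem_iff.1 hO
    exact ⟨f, hf⟩
  choose f hf using hex
  set ζ : M → M → ℝ := fun a => f a with hζdef
  have hsm : ∀ a, IsSmooth E (ζ a) := fun a => (f a).contMDiff
  have h01 : ∀ a x, 0 ≤ ζ a x ∧ ζ a x ≤ 1 := fun a x => ⟨(f a).nonneg, (f a).le_one⟩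
  have hcts : ∀ a, Continuous (ζ a) := fun a => (f a).continuous
  obtain ⟨t, ht⟩ := CompactSpace.elim_nhds_subcover (fun a => {x | 1 / 2 < ζ a x}) (fun a => by
    have h1 : IsOpen {x | 1 / 2 < ζ a x} := isOpen_lt continuous_const (hcts a)
    refine h1.mem_nhds ?_
    have h2 : ζ a a = 1 := (f a).eq_one
    show 1 / 2 < ζ a a
    rw [h2]
    norm_num)
  have ht' : ∀ x, ∃ a ∈ t, 1 / 2 < ζ a x := by
    intro x
    have : x ∈ ⋃ a ∈ t, {x | 1 / 2 < ζ a x} := by rw [ht]; exact mem_univ x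
    simp only [mem_iUnion] at this
    obtain ⟨a, ha, h⟩ := this
    exact ⟨a, ha, h⟩
  set B : M → M → ℝ := fun a x => Bf F (chartAt E a) (i a) x with hB
  set s : M → ℝ := fun x => ∑ a ∈ t, ζ a x ^ 2 * B a x with hs
  have hterm0 : ∀ a x, 0 ≤ ζ a x ^ 2 * B a x := fun a x =>
    mul_nonneg (sq_nonneg _) (Bf_nonneg F _ _ _)
  have hssm : IsSmooth E s :=
    contMDiff_finsetSum fun a _ => term_smooth F (hsm a) (chartAt_mem_max a) (hf a)
  have hs0 : ∀ x, 0 ≤ s x := fun x => Finset.sum_nonneg fun a _ => hterm0 a x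
  refine ⟨s, hssm, hs0, ?_, ?_⟩
  · intro x
    constructor
    · intro h
      obtain ⟨a, ha, hax⟩ := ht' x
      have h1 := (Finset.sum_eq_zero_iff_of_nonneg fun a _ => hterm0 a x).1 h a ha
      have hne : ζ a x ≠ 0 := by intro h0; rw [h0] at hax; norm_num at hax
      have h2 : B a x = 0 := by
        rcases mul_eq_zero.1 h1 with h3 | h3
        · exact absurd (pow_eq_zero_iff (by norm_num)|>.1 h3) hne
        · exact h3
      have hx := hf a (subset_tsupport _ (Function.mem_support.2 hne))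
      exact ⟨i a, hx.2, (Bf_eq_zero F (chartAt_mem_max a) hx.1).1 h2⟩
    · rintro ⟨j, hj, hXj⟩
      refine Finset.sum_eq_zero fun a _ => ?_
      by_cases hax : ζ a x = 0
      · rw [hax]; ring
      have hx := hf a (subset_tsupport _ (Function.mem_support.2 hax))
      have hX : F.X (i a) x = 0 := by
        rw [F.X_eq (i a) j x ⟨hx.2, hj⟩, hXj, smul_zero]
      have : B a x = 0 := (Bf_eq_zero F (chartAt_mem_max a) hx.1).2 hX
      rw [this, mul_zero]
  · -- uniform bounds
    have hC1 : ∃ C ≥ 0, ∀ a ∈ t, ∀ (x : M) (v : TangentSpace 𝓘(ℂ, E) x),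
        |mLevS (ζ a) x v v| ≤ C * (κ.1 x v v).re ∧ mGrd (ζ a) x v ≤ C * (κ.1 x v v).re := by
      choose C hC0 hC using fun a => smooth_bound hκ (hsm a)
      have hnn : ∀ (x : M) (v : TangentSpace 𝓘(ℂ, E) x), 0 ≤ (κ.1 x v v).re := by
        intro x v
        rcases eq_or_ne v 0 with rfl | hv
        · simp
        · exact (hκ x v hv).1.le
      refine ⟨∑ a ∈ t, C a, Finset.sum_nonneg fun a _ => hC0 a, fun a ha x v => ?_⟩
      have h1 : C a * (κ.1 x v v).re ≤ (∑ a ∈ t, C a) * (κ.1 x v v).re :=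
        mul_le_mul_of_nonneg_right (Finset.single_le_sum (fun a _ => hC0 a) ha) (hnn x v)
      exact ⟨(hC a x v).1.trans h1, (hC a x v).2.trans h1⟩
    obtain ⟨C1, hC10, hC1⟩ := hC1
    have hC2 : ∃ C ≥ 0, ∀ a ∈ t, ∀ x ∈ tsupport (ζ a), B a x ≤ C * s x := by
      have hK : ∀ a b, ∃ C ≥ 0, ∀ x ∈ tsupport (ζ a) ∩ {x | 1 / 2 ≤ ζ b x}, B a x ≤ C * B b x := by
        intro a b
        have hcl : IsClosed (tsupport (ζ a) ∩ {x | 1 / 2 ≤ ζ b x}) :=
          (isClosed_tsupport _).inter (isClosed_le continuous_const (hcts b))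
        refine Bf_cmp F hκ (chartAt_mem_max a) (chartAt_mem_max b) hcl.isCompact
          (fun x hx => hf a hx.1) (fun x hx => hf b (subset_tsupport _ ?_))
        rw [Function.mem_support]
        have h1 : 1 / 2 ≤ f b x := hx.2
        intro h0
        rw [h0] at h1
        norm_num at h1
      choose C hC0 hC using hK
      refine ⟨4 * ∑ a ∈ t, ∑ b ∈ t, C a b, by
        have : 0 ≤ ∑ a ∈ t, ∑ b ∈ t, C a b :=
          Finset.sum_nonneg fun a _ => Finset.sum_nonneg fun b _ => hC0 a b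
        positivity, fun a ha x hx => ?_⟩
      obtain ⟨b, hb, hbx⟩ := ht' x
      have h1 := hC a b x ⟨hx, hbx.le⟩
      have h2 : C a b ≤ ∑ a ∈ t, ∑ b ∈ t, C a b :=
        (Finset.single_le_sum (f := fun b => C a b) (fun b _ => hC0 a b) hb).trans
          (Finset.single_le_sum (f := fun a => ∑ b ∈ t, C a b)
            (fun a _ => Finset.sum_nonneg fun b _ => hC0 a b) ha)
      have h3 : B b x ≤ 4 * s x := by
        have h4 : ζ b x ^ 2 * B b x ≤ s x :=
          Finset.single_le_sum (f := fun a => ζ a x ^ 2 * B a x) (fun a _ => hterm0 a x) hb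
        have h5 : 0 ≤ B b x := Bf_nonneg F _ _ _
        have h6 : 1 / 4 ≤ ζ b x ^ 2 := by nlinarith
        nlinarith
      calc B a x ≤ C a b * B b x := h1
        _ ≤ (∑ a ∈ t, ∑ b ∈ t, C a b) * (4 * s x) := by
          have h5 : 0 ≤ B b x := Bf_nonneg F _ _ _
          have h6 := (hC0 a b).le.trans h2
          gcongr
        _ = _ := by ring
    obtain ⟨C2, hC20, hC2⟩ := hC2
    refine ⟨4 * C1 * C2 * (t.card * Module.finrank ℂ E), fun x hx => ?_⟩
    have hgen : F.gen x ≠ 0 := by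
      intro h
      exact hx ⟨_, (F.cover x).choose_spec, h⟩
    set k := (κ.1 x (F.gen x) (F.gen x)).re with hk
    have hk0 : 0 < k := (hκ x _ hgen).1
    have h1 := levi_at F t (ζ := ζ) (i := i) (e := fun a => chartAt E a) (fun a _ => hsm a)
      (fun a _ => h01 a) (fun a _ => chartAt_mem_max a) (fun a _ => hf a) (x := x)
      (v := F.gen x) hC10 hk0.le (fun a ha => hC1 a ha x _) s (fun _ => rfl)
      (fun a ha hxa => hC2 a ha x hxa)
    unfold leafLap leafGrd
    rw [if_neg hx, if_neg hx, ← hk]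
    have h2 : s x * (mLevS s x (F.gen x) (F.gen x) / k) - mGrd s x (F.gen x) / k =
        (s x * mLevS s x (F.gen x) (F.gen x) - mGrd s x (F.gen x)) / k := by ring
    rw [h2, le_div_iff₀ hk0]
    linarith

end Pool.Agent.H64.Nev
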