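import Pool.Agent.H64.Nev.Charts

/-!
# Ingredients of the defining function of the singular set
-/

open MeasureTheory Set Metric Filter Topology
open scoped ContDiff Manifold

namespace Pool.Agent.H64.Nev

open Pool.Agent.H45.Nev

variable {E : Type*} [NormedAddCommGroup E] [NormedSpace ℂ E]
  {M : Type*} [TopologicalSpace M] [ChartedSpace E M] [IsManifold 𝓘(ℂ, E) ω M]

omit [IsManifold 𝓘(ℂ, E) ω M] in
lemma bound_clm {G : Type*} [NormedAddCommGroup G] [NormedSpace ℝ G] {K : Set E}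
    (hK : IsCompact K) {f : E → E →L[ℝ] G} (h : ContinuousOn f K) : ∃ C, ∀ y ∈ K, ‖f y‖ ≤ C :=
  hK.exists_bound_of_continuousOn h

/-- local bound for the derivatives of a smooth function -/
lemma smooth_bound_local {e : OpenPartialHomeomorph M E}
    (he : e ∈ IsManifold.maximalAtlas 𝓘(ℂ, E) ω M) {K : Set M} (hK : IsCompact K)
    (hKe : K ⊆ e.source) {u : M → ℝ} (hu : IsSmooth E u) :
    ∃ C ≥ 0, ∀ x ∈ K, ∀ w : E, |levS (u ∘ e.symm) (e x) w w| ≤ C * ‖w‖ ^ 2 ∧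
      grd (u ∘ e.symm) (e x) w ≤ C * ‖w‖ ^ 2 := by
  have hKc : IsCompact (e '' K) := hK.image_of_continuousOn (e.continuousOn.mono hKe)
  have hKt : e '' K ⊆ e.target := by
    rintro _ ⟨x, hx, rfl⟩
    exact e.map_source (hKe hx)
  have h1 : ContDiffOn ℝ ∞ (fderiv ℝ (u ∘ e.symm)) e.target :=
    ((contDiffOn_infty_iff_fderiv_of_isOpen e.open_target).1 (hu.chart he)).2
  have h2 : ContDiffOn ℝ ∞ (fderiv ℝ (fderiv ℝ (u ∘ e.symm))) e.target :=
    ((contDiffOn_infty_iff_fderiv_of_isOpen e.open_target).1 h1).2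
  obtain ⟨C1, hC1⟩ := hKc.exists_bound_of_continuousOn (h1.continuousOn.mono hKt)
  obtain ⟨C2, hC2⟩ := bound_clm (G := E →L[ℝ] ℝ) hKc (h2.continuousOn.mono hKt)
  refine ⟨2 * |C2| + 2 * C1 ^ 2, by positivity, fun x hx w => ?_⟩
  have hx' : e x ∈ e '' K := mem_image_of_mem _ hx
  have hI : ‖Complex.I • w‖ = ‖w‖ := by simp [norm_smul]
  constructor
  · have hb : ∀ a : E, |fderiv ℝ (fderiv ℝ (u ∘ e.symm)) (e x) a a| ≤ |C2| * ‖a‖ ^ 2 := by
      intro a
      calc |fderiv ℝ (fderiv ℝ (u ∘ e.symm)) (e x) a a|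
          ≤ ‖fderiv ℝ (fderiv ℝ (u ∘ e.symm)) (e x)‖ * ‖a‖ * ‖a‖ := by
            rw [← Real.norm_eq_abs]
            exact ContinuousLinearMap.le_opNorm₂ _ _ _
        _ ≤ |C2| * ‖a‖ * ‖a‖ := by
            gcongr
            exact (hC2 _ hx').trans (le_abs_self _)
        _ = |C2| * ‖a‖ ^ 2 := by ring
    have h3 := hb w
    have h4 := hb (Complex.I • w)
    rw [hI] at h4
    calc |levS (u ∘ e.symm) (e x) w w| ≤ _ := abs_add_le _ _
      _ ≤ |C2| * ‖w‖ ^ 2 + |C2| * ‖w‖ ^ 2 := add_le_add h3 h4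
      _ ≤ (2 * |C2| + 2 * C1 ^ 2) * ‖w‖ ^ 2 := by nlinarith [sq_nonneg (C1 * ‖w‖)]
  · have hb : ∀ a : E, (fderiv ℝ (u ∘ e.symm) (e x) a) ^ 2 ≤ C1 ^ 2 * ‖a‖ ^ 2 := by
      intro a
      have h3 : |fderiv ℝ (u ∘ e.symm) (e x) a| ≤ C1 * ‖a‖ := by
        rw [← Real.norm_eq_abs]
        refine (ContinuousLinearMap.le_opNorm _ _).trans ?_
        gcongr
        exact hC1 _ hx'
      calc (fderiv ℝ (u ∘ e.symm) (e x) a) ^ 2 = |fderiv ℝ (u ∘ e.symm) (e x) a| ^ 2 :=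
            (sq_abs _).symm
        _ ≤ (C1 * ‖a‖) ^ 2 := by gcongr
        _ = _ := by ring
    have h3 := hb w
    have h4 := hb (Complex.I • w)
    rw [hI] at h4
    unfold grd
    have h5 : 0 ≤ |C2| * ‖w‖ ^ 2 := by positivity
    nlinarith

/-- global bound for the derivatives of a smooth function w.r.t. a Hermitian metric -/
theorem smooth_bound [FiniteDimensional ℂ E] [CompactSpace M] [T2Space M] {κ : Form11 E M}
    (hκ : IsHermitianMetric κ) {u : M → ℝ} (hu : IsSmooth E u) :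
    ∃ C ≥ 0, ∀ (x : M) (v : TangentSpace 𝓘(ℂ, E) x), |mLevS u x v v| ≤ C * (κ.1 x v v).re ∧
      mGrd u x v ≤ C * (κ.1 x v v).re := by
  have hnn : ∀ (x : M) (v : TangentSpace 𝓘(ℂ, E) x), 0 ≤ (κ.1 x v v).re := by
    intro x v
    rcases eq_or_ne v 0 with rfl | hv
    · simp
    · exact (hκ x v hv).1.le
  have h := isCompact_univ (X := M).induction_on
    (p := fun s => ∃ C ≥ 0, ∀ x ∈ s, ∀ (v : TangentSpace 𝓘(ℂ, E) x),
      |mLevS u x v v| ≤ C * (κ.1 x v v).re ∧ mGrd u x v ≤ C * (κ.1 x v v).re)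
    ⟨0, le_rfl, fun x hx => absurd hx (notMem_empty x)⟩
    (fun s t hst ⟨C, hC, h⟩ => ⟨C, hC, fun x hx => h x (hst hx)⟩)
    (fun s t ⟨C, hC, h⟩ ⟨C', hC', h'⟩ => by
      refine ⟨max C C', le_max_of_le_left hC, ?_⟩
      rintro x (hx | hx) v
      · have := h x hx v
        have h1 : C * (κ.1 x v v).re ≤ max C C' * (κ.1 x v v).re :=
          mul_le_mul_of_nonneg_right (le_max_left _ _) (hnn x v)
        exact ⟨this.1.trans h1, this.2.trans h1⟩
      · have := h' x hx v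
        have h1 : C' * (κ.1 x v v).re ≤ max C C' * (κ.1 x v v).re :=
          mul_le_mul_of_nonneg_right (le_max_right _ _) (hnn x v)
        exact ⟨this.1.trans h1, this.2.trans h1⟩)
    (fun x _ => by
      have : LocallyCompactSpace M := inferInstance
      obtain ⟨K, hKx, hKs, hK⟩ := local_compact_nhds
        ((chartAt E x).open_source.mem_nhds (mem_chart_source E x))
      refine ⟨K, mem_nhdsWithin_of_mem_nhds hKx, ?_⟩
      have he := chartAt_mem_max (E := E) x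
      obtain ⟨C, hC, h1⟩ := smooth_bound_local he hK hKs hu
      obtain ⟨c, hc, C', hC', h2⟩ := metric_cmp hκ he hK hKs
      refine ⟨C / c, by positivity, fun z hz v => ?_⟩
      have h3 := h1 z hz (dC (chartAt E x) z v)
      have h4 := (h2 z hz v).1
      rw [mLevS_eq he (hKs hz) hu, mGrd_eq he (hKs hz) hu]
      have h5 : C * ‖dC (chartAt E x) z v‖ ^ 2 ≤ C / c * (κ.1 z v v).re := by
        rw [div_mul_eq_mul_div, le_div_iff₀ hc]
        nlinarith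
      exact ⟨h3.1.trans h5, h3.2.trans h5⟩)
  obtain ⟨C, hC, h⟩ := h
  exact ⟨C, hC, fun x v => h x (mem_univ x) v⟩

section vf

variable [FiniteDimensional ℂ E] (F : SingFoliation E M)

/-- the generating vector fields, read in a chart, are smooth -/
lemma hol_at {i : F.ι} {e e' : OpenPartialHomeomorph M E}
    (he : e ∈ IsManifold.maximalAtlas 𝓘(ℂ, E) ω M)
    (he' : e' ∈ IsManifold.maximalAtlas 𝓘(ℂ, E) ω M) {y : E} (hy : y ∈ e'.target)
    (hx : e'.symm y ∈ e.source) (hU : e'.symm y ∈ F.U i) :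
    ContDiffAt ℂ ∞ (fun z => dC e (e'.symm z) (F.X i (e'.symm z))) y := by
  set H : E → E := fun w => dC e (e.symm w) (F.X i (e.symm w)) with hH
  have hopen : IsOpen (e.target ∩ e.symm ⁻¹' F.U i) := e.isOpen_inter_preimage_symm (F.isOpen_U i)
  have hdiff : DifferentiableOn ℂ H (e.target ∩ e.symm ⁻¹' F.U i) := F.holo i e he
  have hc1 : ContDiffAt ℂ ∞ H (e (e'.symm y)) := by
    have : CompleteSpace E := FiniteDimensional.complete ℂ E
    refine contDiffAt_of_differentiableOn hopen hdiff ⟨e.map_source hx, ?_⟩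
    rw [mem_preimage, e.left_inv hx]
    exact hU
  have hc2 : ContDiffAt ℂ ∞ (e ∘ e'.symm) y := (contDiffAt_coord he' he hy hx).of_le le_top
  have hc3 : ContDiffAt ℂ ∞ (H ∘ (e ∘ e'.symm)) y := hc1.comp y hc2
  refine hc3.congr_of_eventuallyEq ?_
  filter_upwards [(e'.continuousAt_symm hy).preimage_mem_nhds (e.open_source.mem_nhds hx)]
    with z hz
  simp only [hH, Function.comp_apply]
  rw [e.left_inv hz]

/-- coordinate functionals -/
noncomputable def coordL (l : Fin (Module.finrank ℂ E)) : E →L[ℂ] ℂ :=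
  LinearMap.toContinuousLinearMap ((Module.finBasis ℂ E).coord l)

lemma norm_sq_le_coord : ∃ C > 0, ∀ w : E, ‖w‖ ^ 2 ≤ C * ∑ l, ‖coordL l w‖ ^ 2 := by
  refine ⟨(∑ l, ‖Module.finBasis ℂ E l‖ ^ 2) + 1, by positivity, fun w => ?_⟩
  have h1 : ‖w‖ ≤ ∑ l, ‖coordL l w‖ * ‖Module.finBasis ℂ E l‖ := by
    conv_lhs => rw [← (Module.finBasis ℂ E).sum_repr w]
    refine (norm_sum_le _ _).trans (le_of_eq ?_)
    refine Finset.sum_congr rfl fun l _ => ?_
    rw [norm_smul]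
    rfl
  calc ‖w‖ ^ 2 ≤ (∑ l, ‖coordL l w‖ * ‖Module.finBasis ℂ E l‖) ^ 2 := by gcongr
    _ ≤ (∑ l, ‖coordL l w‖ ^ 2) * ∑ l, ‖Module.finBasis ℂ E l‖ ^ 2 :=
      Finset.sum_mul_sq_le_sq_mul_sq _ _ _
    _ ≤ _ := by
      have : 0 ≤ ∑ l, ‖coordL (E := E) l w‖ ^ 2 := by positivity
      nlinarith

lemma coord_le_norm_sq : ∃ C ≥ 0, ∀ w : E, ∑ l, ‖coordL l w‖ ^ 2 ≤ C * ‖w‖ ^ 2 := by
  refine ⟨∑ l, ‖coordL (E := E) l‖ ^ 2, by positivity, fun w => ?_⟩
  rw [Finset.sum_mul]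
  refine Finset.sum_le_sum fun l _ => ?_
  calc ‖coordL l w‖ ^ 2 ≤ (‖coordL (E := E) l‖ * ‖w‖) ^ 2 := by
        gcongr
        exact ContinuousLinearMap.le_opNorm _ _
    _ = _ := by ring

/-- the coordinates of the generating vector field in a chart -/
noncomputable def hfun (e : OpenPartialHomeomorph M E) (i : F.ι) (l : Fin (Module.finrank ℂ E))
    (x : M) : ℂ := coordL l (dC e x (F.X i x))

/-- squared length of the generating vector field in a chart -/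
noncomputable def Bf (e : OpenPartialHomeomorph M E) (i : F.ι) (x : M) : ℝ :=
  ∑ l, ‖hfun F e i l x‖ ^ 2

omit [IsManifold 𝓘(ℂ, E) ω M] in
lemma Bf_nonneg (e : OpenPartialHomeomorph M E) (i : F.ι) (x : M) : 0 ≤ Bf F e i x := by
  unfold Bf; positivity

lemma hfun_contDiffAt {i : F.ι} {e e' : OpenPartialHomeomorph M E}
    (he : e ∈ IsManifold.maximalAtlas 𝓘(ℂ, E) ω M)
    (he' : e' ∈ IsManifold.maximalAtlas 𝓘(ℂ, E) ω M) {y : E} (hy : y ∈ e'.target)
    (hx : e'.symm y ∈ e.source) (hU : e'.symm y ∈ F.U i) (l : Fin (Module.finrank ℂ E)) :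
    ContDiffAt ℂ ∞ (fun z => hfun F e i l (e'.symm z)) y :=
  (coordL l).contDiff.contDiffAt.comp y (hol_at F he he' hy hx hU)

lemma Bf_eq_zero {i : F.ι} {e : OpenPartialHomeomorph M E}
    (he : e ∈ IsManifold.maximalAtlas 𝓘(ℂ, E) ω M) {x : M} (hx : x ∈ e.source) :
    Bf F e i x = 0 ↔ F.X i x = 0 := by
  constructor
  · intro h
    obtain ⟨C, hC, h1⟩ := norm_sq_le_coord (E := E)
    have h2 := h1 (dC e x (F.X i x))
    have h3 : (∑ l, ‖coordL l (dC e x (F.X i x))‖ ^ 2) = 0 := h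
    rw [h3, mul_zero] at h2
    have h4 : ‖dC e x (F.X i x)‖ = 0 := by
      have := norm_nonneg (dC e x (F.X i x))
      nlinarith
    exact dC_injective he hx (norm_eq_zero.1 h4)
  · intro h
    have h1 : ∀ l, hfun F e i l x = 0 := by
      intro l
      have : hfun F e i l x = coordL l (dC e x (F.X i x)) := rfl
      rw [this, h]
      have h2 : dC e x (0 : TangentSpace 𝓘(ℂ, E) x) = 0 := map_zero (dC e x)
      rw [h2, map_zero]
    simp [Bf, h1]

/-- comparison of the lengths of the generating vector fields -/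
lemma Bf_cmp {κ : Form11 E M} (hκ : IsHermitianMetric κ) {i i' : F.ι}
    {e e' : OpenPartialHomeomorph M E}
    (he : e ∈ IsManifold.maximalAtlas 𝓘(ℂ, E) ω M)
    (he' : e' ∈ IsManifold.maximalAtlas 𝓘(ℂ, E) ω M) {K : Set M} (hK : IsCompact K)
    (h1 : K ⊆ e.source ∩ F.U i) (h2 : K ⊆ e'.source ∩ F.U i') :
    ∃ C ≥ 0, ∀ x ∈ K, Bf F e i x ≤ C * Bf F e' i' x := by
  obtain ⟨c1, hc1, C1, hC1, h3⟩ := metric_cmp hκ he hK fun x hx => (h1 hx).1
  obtain ⟨c2, hc2, C2, hC2, h4⟩ := metric_cmp hκ he' hK fun x hx => (h2 hx).1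
  obtain ⟨C3, hC3, h5⟩ := norm_sq_le_coord (E := E)
  obtain ⟨C4, hC4, h6⟩ := coord_le_norm_sq (E := E)
  have hg : ContinuousOn (F.g i i') K :=
    (F.g_holo i i').continuousOn.mono fun x hx => ⟨(h1 hx).2, (h2 hx).2⟩
  obtain ⟨C5, hC5⟩ := hK.exists_bound_of_continuousOn hg
  refine ⟨C4 * (C5 ^ 2 * (C2 * C3) / c1), by positivity, fun x hx => ?_⟩
  have hX := F.X_eq i i' x ⟨(h1 hx).2, (h2 hx).2⟩
  have hB : Bf F e i x ≤ C4 * ‖dC e x (F.X i x)‖ ^ 2 := h6 _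
  have hκe : c1 * ‖dC e x (F.X i x)‖ ^ 2 ≤ (κ.1 x (F.X i x) (F.X i x)).re := (h3 x hx _).1
  have hκg : (κ.1 x (F.X i x) (F.X i x)).re =
      ‖F.g i i' x‖ ^ 2 * (κ.1 x (F.X i' x) (F.X i' x)).re := by
    rw [hX, (κ.1 x).map_smul, LinearMap.smul_apply, LinearMap.map_smulₛₗ, smul_eq_mul, smul_eq_mul,
      ← mul_assoc, Complex.mul_conj, Complex.normSq_eq_norm_sq, Complex.re_ofReal_mul]
  have hκe' : (κ.1 x (F.X i' x) (F.X i' x)).re ≤ C2 * ‖dC e' x (F.X i' x)‖ ^ 2 := (h4 x hx _).2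
  have hB' : ‖dC e' x (F.X i' x)‖ ^ 2 ≤ C3 * Bf F e' i' x := h5 _
  have hg' : ‖F.g i i' x‖ ^ 2 ≤ C5 ^ 2 := by
    have := hC5 x hx
    gcongr
  have hB0 := Bf_nonneg F e' i' x
  have h7 : (κ.1 x (F.X i x) (F.X i x)).re ≤ C5 ^ 2 * (C2 * C3) * Bf F e' i' x := by
    rw [hκg]
    calc ‖F.g i i' x‖ ^ 2 * (κ.1 x (F.X i' x) (F.X i' x)).re
        ≤ ‖F.g i i' x‖ ^ 2 * (C2 * (C3 * Bf F e' i' x)) := by
          gcongr
          exact hκe'.trans (by gcongr)
      _ ≤ C5 ^ 2 * (C2 * (C3 * Bf F e' i' x)) := by gcongr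
      _ = _ := by ring
  have h8 : ‖dC e x (F.X i x)‖ ^ 2 ≤ C5 ^ 2 * (C2 * C3) / c1 * Bf F e' i' x := by
    rw [div_mul_eq_mul_div, le_div_iff₀ hc1]
    linarith
  calc Bf F e i x ≤ C4 * ‖dC e x (F.X i x)‖ ^ 2 := hB
    _ ≤ C4 * (C5 ^ 2 * (C2 * C3) / c1 * Bf F e' i' x) := by gcongr
    _ = _ := by ring

end vf

end Pool.Agent.H64.Nev
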